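import Pool.Agent.MP_3ee8cb_gt.DLS.Top
import Pool.Agent.MP_3ee8cb_gt.D3IN.RSca

/-! Rigidity under a rough isometry with a small error. -/

namespace Pool.Agent.MP_3ee8cb_gt.DLG

open Set Filter Topology DN DZ Real DLS
open CR (Met UT Riem dd seg ng bus tm scale_m scale_app DBP)
open LV (QP CJ)
open scoped RealInnerProductSpace

theorem seg_sc {n : ℕ} {a : ℝ} (ha : 0 < a) (g : Met n) (x y : CR.E n) :
    seg (scale_m a⁻¹ g) x y = a * seg g x y := by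
  unfold seg
  rw [← intervalIntegral.integral_const_mul]
  refine intervalIntegral.integral_congr fun t _ => ?_
  simp only [D3IN.Sca.app]
  rw [sqrt_mul (sq_nonneg a), sqrt_sq ha.le]

theorem dd_sc {n : ℕ} {a : ℝ} {g : Met n} (ha : 0 < a) (d : DBP g) (d' : DBP (scale_m a⁻¹ g))
    (x y : CR.E n) : dd (scale_m a⁻¹ g) x y = a * dd g x y := by
  have k1 := d.test (fun z => dd (scale_m a⁻¹ g) x z / a) (fun u v => by
    rw [← sub_div, div_le_iff₀' ha, ← seg_sc ha]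
    linarith [d'.tri x u v, d'.le_seg u v]) x y
  have k2 := d'.test (fun z => a * dd g x z) (fun u v => by
    rw [seg_sc ha, ← mul_sub]
    exact mul_le_mul_of_nonneg_left (by linarith [d.tri x u v, d.le_seg u v]) ha.le) x y
  simp only [d.refl, d'.refl, zero_div, mul_zero, sub_zero, div_le_iff₀' ha] at k1 k2
  exact k1.antisymm k2

variable [Dim]

section

variable {m : MF} {lg : V × V → V} {dX : V → V → ℝ} {P : Type} [TopologicalSpace P] {A : Fam P}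

theorem mor (B : BF m lg dX A) (c : P → V) {η : ℝ} (η0 : 0 < η) (η1 : η ≤ 1 / 12)
    (bd : ∃ S, ∀ p, sm A p (c p) ≤ S)
    (H : ∀ p, ∃ (o v : V) (T : ℝ) (p₁ p₂ : P), ‖v‖ = 1 ∧ 1 ≤ T ∧ ‖lg (o, c p)‖ ≤ η ∧
      sm A p (m.Z T (o, v)).1 = sm A p₁ (c p₁) ∧
      sm A p (m.Z (-T) (o, v)).1 = sm A p₂ (c p₂)) (p₀ : P) :
    sm A p₀ (c p₀) ≤ 15 * η := by
  have : Nonempty P := ⟨p₀⟩
  obtain ⟨S₀, hS₀⟩ := bd
  have ba : BddAbove (range fun p => sm A p (c p)) := ⟨S₀, forall_mem_range.2 hS₀⟩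
  obtain ⟨S, hS⟩ : ∃ S, S = ⨆ p, sm A p (c p) := ⟨_, rfl⟩
  have le : ∀ p, sm A p (c p) ≤ S := fun p => hS ▸ le_ciSup ba p
  obtain ⟨p, hp⟩ := exists_lt_of_lt_ciSup (f := fun p => sm A p (c p))
    (show S - η < ⨆ p, sm A p (c p) by linarith)
  obtain ⟨o, v, T, p₁, p₂, hv, hT, ho, e₁, e₂⟩ := H p
  have s1 : S ≤ sm A p o + 3 * η := by
    have a1 := (B.isb p).lip (c p) o
    have a2 := (B.isb (A.fl p)).lip (c p) o
    rw [D0.symm B.yw.jac B.yw.had] at a1 a2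
    simp only [sm] at hp ⊢
    linarith
  have t1 := (two B p o hv T).trans (exp_le_exp.2 ((e₁.le.trans (le _)).trans s1))
  have t2 := (two B p o hv (-T)).trans (exp_le_exp.2 ((e₂.le.trans (le _)).trans s1))
  rw [cosh_neg, sinh_neg] at t2
  rw [exp_add] at t1 t2
  replace t1 := le_of_mul_le_mul_left t1 (exp_pos _)
  replace t2 := le_of_mul_le_mul_left t2 (exp_pos _)
  have k := key B (B.flp p).1.symm o
  have r1 : ⟪A.ν p o, A.ν (A.fl p) o⟫ ≤ 1 + 2 * (⟪A.ν p o, v⟫ * ⟪A.ν (A.fl p) o, v⟫) := by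
    have n1 : ‖A.ν (A.fl p) o - (2 * ⟪A.ν (A.fl p) o, v⟫) • v‖ ^ 2 = 1 := by
      rw [norm_sub_sq_real, real_inner_smul_right, norm_smul, hv, (B.isb _).unit, mul_one,
        norm_eq_abs, sq_abs]
      ring
    have n2 := real_inner_le_norm (A.ν p o) (A.ν (A.fl p) o - (2 * ⟪A.ν (A.fl p) o, v⟫) • v)
    rw [(pow_eq_one_iff_of_nonneg (norm_nonneg _) two_ne_zero).1 n1, (B.isb _).unit,
      inner_sub_right, real_inner_smul_right] at n2
    linarith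
  have a1 : |⟪A.ν p o, v⟫| ≤ 1 :=
    (abs_real_inner_le_norm _ _).trans_eq (by rw [(B.isb _).unit, hv, one_mul])
  have a2 : |⟪A.ν (A.fl p) o, v⟫| ≤ 1 :=
    (abs_real_inner_le_norm _ _).trans_eq (by rw [(B.isb _).unit, hv, one_mul])
  have a3 : 0 ≤ 1 + ⟪A.ν p o, v⟫ * ⟪A.ν (A.fl p) o, v⟫ := by
    have := (abs_le.1 ((abs_mul _ _).trans_le (mul_le_one₀ a1 (abs_nonneg _) a2))).1
    linarith
  have a4 : 1 ≤ sinh T ^ 2 :=
    one_le_pow₀ (hT.trans (self_le_sinh_iff.2 (by linarith)))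
  have a5 := mul_le_mul_of_nonneg_left a4 a3
  have a6 := cosh_sq' T
  have a7 := exp_le_two (x := 3 * η) (by linarith) (by linarith)
  have a8 : 1 + ⟪A.ν p o, v⟫ * ⟪A.ν (A.fl p) o, v⟫ ≤ 6 * η := by nlinarith
  have a9 : exp (sm A p o) ≤ exp (12 * η) := by
    have b1 := add_one_le_exp (12 * η)
    have b2 := exp_pos (sm A p o)
    refine le_of_mul_le_mul_right ?_ (show 0 < 1 - 6 * η by linarith)
    rw [← sm] at k
    nlinarith
  linarith [exp_le_exp.1 a9, le p₀]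

end

/-- A rough isometry at the scale `1 / a`. -/
def Rg (g h : Met dm) (φ : V → V) (a ε : ℝ) : Prop :=
  ∀ x y, a * dd g x y ≤ 4 → a * |dd h (φ x) (φ y) - dd g x y| ≤ ε

theorem bdd {g h : Met dm} {Γ Λ : Type} [Group Γ] [MulAction Γ V] [Group Λ] [MulAction Λ V]
    {Φ : ℝ → UT g → UT g} {Ψ : ℝ → UT h → UT h} {F : UT g ≃ₜ UT h} {ρ : Γ ≃* Λ}
    (qg : QP g Γ Φ) (qh : QP h Λ Ψ) (j : CJ g h Φ Ψ ρ F) {φ : V → V} {ε : ℝ}
    (eq : ∀ (γ : Γ) x, φ (γ • x) = ρ γ • φ x) (R : Rg g h φ 1 ε) :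
    ∃ D, ∀ p, dd h (φ p.1.1) (F p).1.1 ≤ D := by
  have one : ∀ x y, dd g x y ≤ 1 → dd h (φ x) (φ y) ≤ 1 + ε := fun x y e => by
    have := R x y (by linarith)
    rw [one_mul] at this
    linarith [(abs_le.1 this).2]
  have ε0 : 0 ≤ 1 + ε := (qh.rp.db.nonneg _ _).trans (one 0 0 (by rw [qg.rp.db.refl]; norm_num))
  have ind : ∀ (N : ℕ) x y, dd g x y ≤ N → dd h (φ x) (φ y) ≤ (N + 1) * (1 + ε) := by
    intro N
    induction N with
    | zero => exact fun x y e => (one x y (by norm_num at e; linarith)).trans (by norm_num)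
    | succ N ih =>
      intro x y e
      push_cast at e ⊢
      rcases le_total (dd g x y) 1 with l | l
      · nlinarith [one x y l, mul_nonneg (Nat.cast_nonneg (α := ℝ) N) ε0]
      obtain ⟨p, h1, h2⟩ := qg.rp.hr x y
      have a1 := qg.rp.fl.lip p 0 1
      have a2 := qg.rp.fl.lip p 1 (dd g x y)
      rw [qg.rp.flow.zero, h1] at a1
      rw [h2, abs_of_nonpos (by linarith)] at a2
      have a3 := one _ _ (a1.trans (by norm_num))
      have a4 := ih _ _ (a2.trans (by linarith))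
      linarith [qh.rp.db.tri (φ x) (φ (Φ 1 p).1.1) (φ y)]
  obtain ⟨K, hK, cov⟩ := qg.rp.deck.cpt
  have c : Continuous fun p : UT g => dd h (φ 0) (F p).1.1 :=
    qh.rp.db.cont.comp (f := fun p : UT g => (φ 0, (F p).1.1)) (by fun_prop)
  have c' : Continuous fun x => dd g x 0 :=
    qg.rp.db.cont.comp (f := fun x : V => (x, 0)) (by fun_prop)
  obtain ⟨D, hD⟩ := (CR.uc_cpt qg.rp.riem hK).bddAbove_image c.continuousOn
  obtain ⟨D', hD'⟩ := hK.bddAbove_image c'.continuousOn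
  obtain ⟨N, hN⟩ := exists_nat_ge D'
  refine ⟨(N + 1) * (1 + ε) + D, fun p => ?_⟩
  obtain ⟨γ, hγ⟩ := cov p.1.1
  have u : g (tm γ p.1).1 (tm γ p.1).2 (tm γ p.1).2 = 1 := (qg.rp.deck.iso γ _ _ _).trans p.2
  have e := j.equi γ p ⟨tm γ p.1, u⟩ rfl
  have k := hD (mem_image_of_mem _ (show (⟨tm γ p.1, u⟩ : UT g) ∈ {p : UT g | p.1.1 ∈ K} from hγ))
  rw [e] at k
  have k' := ind N _ _ ((hD' (mem_image_of_mem _ hγ)).trans hN)
  rw [eq] at k'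
  exact (qh.rp.inv (ρ γ) _ _).symm.trans_le ((qh.rp.db.tri _ _ _).trans (add_le_add k' k))

theorem stab {hi r : ℝ} (h1 : 1 ≤ hi) (hr : 0 < r) : ∃ ε : ℝ, 0 < ε ∧
    On2 fun g h _ C' _ _ _ _ _ _ _ Ψ _ F => ∀ m lg ν φ, NB h C' Ψ m lg ν → m.Up 1 → m.Dn hi →
      (∀ p, F (ng p) = ng (F p)) → Rg g h φ 1 ε → (∃ D, ∀ p, dd h (φ p.1.1) (F p).1.1 ≤ D) →
      ∀ p, |bus h Ψ (F p) (φ p.1.1)| ≤ r := by
  obtain ⟨N, η, ε, N0, θ1, θr, η0, η1, ηθ, ε0, ε1, εη⟩ :=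
    consts (L := 2 * hi + 1) (by linarith) hr
  refine ⟨ε, ε0, ?_⟩
  intro g h C C' Γ Λ _ _ _ _ Φ Ψ ρ F qg qh cg ch dΓ dΛ cj m lg ν φ nb u1 dn fp R ⟨D, hD⟩
  have B := sBF sMOV sLIP sGR g h C C' Γ Λ Φ Ψ ρ F qg qh cg ch dΓ dΛ cj m lg ν nb fp
  have G := sBG m lg _ _ _ B
  have hin := sHN h C' Λ Ψ qh ch m lg 1 nb.yw.ok nb.lk one_pos nb.cv nb.dist
  obtain ⟨-, -, -, bh, -, -, mg, -⟩ := RMOV.kit qg qh cj nb.cv
  have sh : ∀ t p z, sm (fam Ψ F ν) p z = sm (fam Ψ F ν) (Φ t p) z := by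
    intro t p z
    simp only [sm, fam, fp, cj.flow, bh.shift, bh.bshift]
    ring
  have R' : ∀ (p : UT g) (s t : ℝ), |s - t| ≤ 4 →
      |‖lg (φ (Φ s p).1.1, φ (Φ t p).1.1)‖ - (|s - t|)| ≤ ε := fun p s t e => by
    have := R (Φ s p).1.1 (Φ t p).1.1 (by rwa [one_mul, mg])
    rwa [one_mul, mg, ← nb.dist] at this
  have s := mor B (fun p => φ p.1.1) η0 η1 ⟨2 * D, fun p => by
      have a1 := (B.isb p).lip (φ p.1.1) (F p).1.1
      have a2 := (B.isb (ng p)).lip (φ p.1.1) (F p).1.1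
      have a3 := B.foot p
      have a4 := B.foot (ng p)
      have a5 := (B.flp p).2.1
      have a6 := hD p
      rw [nb.dist] at a1 a2
      simp only [sm, fam] at a1 a2 a3 a4 a5 ⊢
      rw [a5] at a4
      linarith⟩ fun p => by
      have a1 := (abs_le.1 (R' p (-2) 0 (by norm_num))).2
      have a2 := (abs_le.1 (R' p 2 0 (by norm_num))).2
      have a3 := (abs_le.1 (R' p (-2) 2 (by norm_num))).1
      rw [qg.rp.flow.zero] at a1 a2
      norm_num at a1 a2 a3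
      obtain ⟨o, v, T, hv, hT, ho, e1, e2⟩ := mid nb.yw hin (a := φ (Φ (-2) p).1.1)
        (c := φ (Φ 2 p).1.1) (x := φ p.1.1) (R := 2 - 2 * ε) (δ := 4 * ε) (by linarith)
        (by linarith) (by linarith) η0.le εη (by linarith) (by linarith) (by linarith)
      exact ⟨o, v, T, Φ 2 p, Φ (-2) p, hv, hT, ho, e1 ▸ sh 2 p _, e2 ▸ sh (-2) p _⟩
  have θ0 : 0 < π / N := div_pos pi_pos (Nat.cast_pos.2 N0)
  have up : ∀ p : UT g, bus h Ψ (F p) (φ p.1.1) ≤ r := fun p =>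
    (chain B G (x := p.1.1) (z := φ p.1.1) N0 θ1 (fun q hq => by
      have := grad nb.yw u1 dn h1 (B.isb q) (B.isb (ng q)) (G.opp q) _ θ0 (by nlinarith)
        ((s q).trans ηθ)
      exact hq ▸ this) p rfl).trans θr
  intro p
  have a1 : 0 ≤ bus h Ψ (F p) (φ p.1.1) + bus h Ψ (F (ng p)) (φ p.1.1) := G.opp p _
  have a2 : bus h Ψ (F (ng p)) (φ p.1.1) ≤ r := up (ng p)
  exact abs_le.2 ⟨by linarith, up p⟩

/-- Rigidity under a rough isometry, curvature at most `-1`. -/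
def Main1 (hi ε : ℝ) : Prop := On2 fun g h _ C' Γ _ _ _ _ _ _ _ ρ _ => Pin h C' 1 hi → ∀ φ : V → V,
  (∀ (γ : Γ) x, φ (γ • x) = ρ γ • φ x) → Rg g h φ 1 ε → Iso g h ρ

/-- Rigidity under a rough isometry. -/
def MainG (k ε : ℝ) : Prop := On2 fun g h _ C' Γ _ _ _ _ _ _ _ ρ _ => ∀ a : ℝ, 0 < a →
  Pin h C' (a ^ 2) (k * a ^ 2) → ∀ φ : V → V, (∀ (γ : Γ) x, φ (γ • x) = ρ γ • φ x) →
    Rg g h φ a ε → Iso g h ρ

theorem main1_of {hi r : ℝ} (h1 : 1 ≤ hi) (hr : 0 < r) (core : Core hi r) :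
    ∃ ε, 0 < ε ∧ Main1 hi ε := by
  obtain ⟨ε, ε0, st⟩ := stab h1 hr
  refine ⟨ε, ε0, ?_⟩
  intro g h C C' Γ Λ _ _ _ _ Φ Ψ ρ F₀ qg qh cg ch dΓ dΛ cj₀ kh φ eq R
  have kh' : TB.CurvLe h 1 := ⟨C', ch, fun x u v => by simpa using (kh x u v).2⟩
  obtain ⟨m, o, l⟩ := sFRM h C' Λ Ψ qh ch
  have j := sJAC m o
  obtain ⟨lg, hl, hd⟩ := DNFL.had h C' Λ Ψ qh ch m 1 o j l one_pos kh'
  obtain ⟨-, s, F, -, cj, fp⟩ :=
    DNFL.flp g h C C' Γ Λ Φ Ψ ρ F₀ qg qh cg ch dΓ dΛ cj₀ 1 one_pos kh'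
  have cs : ∀ u v : V, 0 ≤ ‖u‖ ^ 2 * ‖v‖ ^ 2 - ⟪u, v⟫ ^ 2 := fun u v => by
    have := real_inner_mul_inner_self_le u v
    rw [real_inner_self_eq_norm_sq, real_inner_self_eq_norm_sq] at this
    nlinarith
  have u1 : m.Up 1 := fun y u v => by
    have := (kh y (m.R y u) (m.R y v)).2
    rw [(l.sec o y u v).1, ← (l.sec o y u v).2]
    linarith
  have d1 : m.Dn hi := fun y u v => by
    have := (kh y (m.R y u) (m.R y v)).1
    rw [(l.sec o y u v).1, ← (l.sec o y u v).2]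
    linarith
  have u0 : m.Up 0 := fun y u v =>
    le_trans (mul_le_mul_of_nonneg_right zero_le_one (cs u v)) (u1 y u v)
  have yw : YW m lg := ⟨o, j, hl, u0⟩
  have as := sASY h C' Λ Ψ qh ch kh'
  obtain ⟨ν, hν⟩ := sEXA h C' Λ Ψ qh ch m lg kh' as yw l hd
  have nb : NB h C' Ψ m lg ν := ⟨kh', yw, l, hd, as, sBC h C' Λ Ψ qh ch kh', fun w => (hν w).1,
    fun w => sB1 m lg _ _ yw (hν w).1, fun w => (hν w).2⟩
  have S := st g h C C' Γ Λ Φ Ψ ρ F qg qh cg ch dΓ dΛ cj m lg ν φ nb u1 d1 fp R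
    (bdd qg qh cj eq R)
  exact core g h C C' Γ Λ Φ Ψ ρ F qg qh cg ch dΓ dΛ cj kh fp
    fun x => ⟨φ x, fun p hp => hp ▸ S p⟩

theorem scale {k ε : ℝ} (A : Main1 k ε) : MainG k ε := by
  intro g h C C' Γ Λ _ _ _ _ Φ Ψ ρ F qg qh c c' dΓ dΛ j a ha K φ eq R
  have hc : a⁻¹ ≠ 0 := inv_ne_zero ha.ne'
  have a2 : 0 < a ^ 2 := pow_pos ha 2
  obtain ⟨G, h1, h2, h3, h4⟩ := A (scale_m a⁻¹ g) (scale_m a⁻¹ h) C C' Γ Λ _ _ _ _ (DZS.qp hc qg)
    (DZS.qp hc qh) (DZS.chr _ c) (DZS.chr _ c') dΓ dΛ (DZS.cj hc j) (fun x u v => by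
      simp only [D3IN.Sca.app]
      have k1 := mul_le_mul_of_nonneg_left (K x u v).1 a2.le
      have k2 := mul_le_mul_of_nonneg_left (K x u v).2 a2.le
      constructor
      · linarith
      · linarith) φ eq fun x y e => by
      rw [dd_sc ha qg.rp.db (DZS.qp hc qg).rp.db] at e ⊢
      rw [dd_sc ha qh.rp.db (DZS.qp hc qh).rp.db, one_mul, ← mul_sub, abs_mul, abs_of_pos ha]
      exact R x y (by linarith)
  refine ⟨G, h1, h2, fun x u v => ?_, h4⟩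
  have := h3 x u v
  rw [D3IN.Sca.app, D3IN.Sca.app] at this
  exact mul_left_cancel₀ a2.ne' this

end Pool.Agent.MP_3ee8cb_gt.DLG
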